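import Mathlib
import Pool.Agent.Helper23K9.LR.Main

set_option autoImplicit false

namespace Pool.Agent.Results.MP_cf641d_an.EuclideanRigid

open Pool.Agent.Helper23K9.LR

/-- For every `d ≥ 2` the space `ℝ^d` with the Euclidean distance is Lipschitz-free rigid: every surjective linear
isometry `T` of the Lipschitz-free space `𝓕(ℝ^d)` is `ε T_φ` for a sign `ε` and a surjective dilation `φ`. -/
theorem result (d : ℕ) (hd : 2 ≤ d) : LipFreeRigid (EuclideanSpace ℝ (Fin d)) :=
  rigid (by rw [finrank_euclideanSpace_fin]; exact hd)

end Pool.Agent.Results.MP_cf641d_an.EuclideanRigid
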